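import Mathlib

/-!
# Online caching of inelastic contents in bipartite networks: definitions and averages
-/

set_option autoImplicit false
set_option linter.unusedSectionVars false

open Finset

namespace Pool.Agent.V11278.Cache

section defs

variable {I J F : Type} [Fintype I] [Fintype J] [Fintype F] [DecidableEq I] [DecidableEq J]
  [DecidableEq F]

/-- the caches adjacent to the user `i`, where `adj j` is the set of the users adjacent to `j` -/
def nbr (adj : J → Finset I) (i : I) : Finset J := univ.filter fun j => i ∈ adj j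

/-- the number of the caches adjacent to the user `i` -/
def deg (adj : J → Finset I) (i : I) : ℕ := (nbr adj i).card

/-- `y j f` is the part of the file `f` stored in the cache `j`; the capacities are `C` -/
def Config (C : ℕ) (y : J → F → ℝ) : Prop :=
  (∀ j f, 0 ≤ y j f ∧ y j f ≤ 1) ∧ ∀ j, ∑ f, y j f ≤ C

/-- the inelastic reward of the configuration `y` if user `i` requests the file `x i` -/
noncomputable def reward (adj : J → Finset I) (x : I → F) (y : J → F → ℝ) : ℝ :=
  ∑ i, min 1 (∑ j ∈ nbr adj i, y j (x i))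

/-- an online policy chooses a configuration as a function of the past requests -/
def Policy (I J F : Type) [Fintype F] (C : ℕ) : Type :=
  {π : List (I → F) → J → F → ℝ // ∀ l, Config C (π l)}

/-- the regret of the policy `π` against the request sequence `x` -/
noncomputable def regretOn (adj : J → Finset I) (C T : ℕ) (π : Policy I J F C)
    (x : Fin T → I → F) : ℝ :=
  (⨆ y : {y : J → F → ℝ // Config C y}, ∑ t, reward adj (x t) y.1) -
    ∑ t : Fin T, reward adj (x t) (π.1 ((List.ofFn x).take t))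

/-- the regret of a policy -/
noncomputable def regret (adj : J → Finset I) (C T : ℕ) (π : Policy I J F C) : ℝ :=
  ⨆ x : Fin T → I → F, regretOn adj C T π x

/-- the minimax regret -/
noncomputable def minimaxRegret (F : Type) [Fintype F] (adj : J → Finset I) (C T : ℕ) : ℝ :=
  ⨅ π : Policy I J F C, regret adj C T π

end defs

/-! ### averages -/

section av

variable {A B : Type} [Fintype A] [Fintype B]

/-- the average of a function on a finite type -/
noncomputable def av (f : A → ℝ) : ℝ := (∑ a, f a) / (Fintype.card A : ℝ)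

theorem av_const [Nonempty A] (c : ℝ) : av (fun _ : A => c) = c := by
  have h : (Fintype.card A : ℝ) ≠ 0 := by
    have := Fintype.card_pos (α := A)
    positivity
  rw [av, Finset.sum_const, Finset.card_univ, nsmul_eq_mul]
  field_simp

theorem av_add (f g : A → ℝ) : av (fun a => f a + g a) = av f + av g := by
  simp only [av, Finset.sum_add_distrib, add_div]

theorem av_sub (f g : A → ℝ) : av (fun a => f a - g a) = av f - av g := by
  simp only [av, Finset.sum_sub_distrib, sub_div]

theorem av_mul_left (c : ℝ) (f : A → ℝ) : av (fun a => c * f a) = c * av f := by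
  simp only [av, ← Finset.mul_sum, mul_div_assoc]

theorem av_sum {ι : Type*} (s : Finset ι) (f : ι → A → ℝ) :
    av (fun a => ∑ i ∈ s, f i a) = ∑ i ∈ s, av (f i) := by
  simp only [av]
  rw [Finset.sum_comm, Finset.sum_div]

theorem av_mono {f g : A → ℝ} (h : ∀ a, f a ≤ g a) : av f ≤ av g :=
  div_le_div_of_nonneg_right (Finset.sum_le_sum fun a _ => h a) (Nat.cast_nonneg _)

theorem av_nonneg {f : A → ℝ} (h : ∀ a, 0 ≤ f a) : 0 ≤ av f :=
  div_nonneg (Finset.sum_nonneg fun a _ => h a) (Nat.cast_nonneg _)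

theorem av_equiv (e : A ≃ B) (f : B → ℝ) : av (fun a => f (e a)) = av f := by
  rw [av, av, Fintype.card_congr e, Equiv.sum_comp e f]

theorem av_prod (f : A × B → ℝ) : av f = av (fun a => av fun b => f (a, b)) := by
  simp only [av, Fintype.sum_prod_type, Fintype.card_prod, Nat.cast_mul]
  rw [← Finset.sum_div, div_div, mul_comm]

theorem av_comm (f : A → B → ℝ) : av (fun a => av (f a)) = av (fun b => av fun a => f a b) := by
  simp only [av]
  rw [← Finset.sum_div, ← Finset.sum_div, Finset.sum_comm, div_div, div_div, mul_comm]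

theorem exists_ge_av [Nonempty A] (f : A → ℝ) : ∃ a, av f ≤ f a := by
  by_contra h
  push Not at h
  have h1 : ∑ a, f a < ∑ _a : A, av f :=
    Finset.sum_lt_sum_of_nonempty Finset.univ_nonempty fun a _ => h a
  have h0 : (0 : ℝ) < Fintype.card A := by
    have := Fintype.card_pos (α := A)
    positivity
  rw [Finset.sum_const, Finset.card_univ, nsmul_eq_mul, av, mul_div_cancel₀ _ h0.ne'] at h1
  exact lt_irrefl _ h1

/-- resampling one coordinate -/
theorem av_update {ι : Type} [Fintype ι] [DecidableEq ι] {S : ι → Type} [∀ i, Fintype (S i)]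
    [∀ i, Nonempty (S i)] (i : ι) (f : (∀ k, S k) → ℝ) :
    av f = av (fun ω => av fun a : S i => f (Function.update ω i a)) := by
  have e := Equiv.piSplitAt i S
  have key : ∀ (a b : S i) (r : ∀ j : {j // j ≠ i}, S j),
      Function.update ((Equiv.piSplitAt i S).symm (b, r)) i a =
        (Equiv.piSplitAt i S).symm (a, r) := by
    intro a b r
    funext k
    by_cases hk : k = i
    · subst hk
      simp [Equiv.piSplitAt]
    · simp [Equiv.piSplitAt, hk]
  rw [← av_equiv (Equiv.piSplitAt i S).symm f,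
    ← av_equiv (Equiv.piSplitAt i S).symm (fun ω => av fun a : S i => f (Function.update ω i a)),
    av_prod, av_prod]
  simp only [key]
  rw [av_const (A := S i)]
  rw [av_comm]

theorem av_marg {ι : Type} [Fintype ι] [DecidableEq ι] {S : ι → Type} [∀ i, Fintype (S i)]
    [∀ i, Nonempty (S i)] (i : ι) (g : S i → ℝ) :
    av (fun ω : ∀ k, S k => g (ω i)) = av g := by
  rw [av_update i]
  simp only [Function.update_self]
  rw [av_const]

end av

/-! ### moments of sums of independent variables -/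

section mom

variable {A : Type} [Fintype A] [Nonempty A] (ξ : A → ℝ)

/-- splitting off the first coordinate -/
theorem av_succ (T : ℕ) (f : (Fin (T + 1) → A) → ℝ) :
    av f = av (fun a : A => av fun α : Fin T → A => f (Fin.cons a α)) := by
  rw [← av_prod (fun p : A × (Fin T → A) => f (Fin.cons p.1 p.2))]
  exact (av_equiv (Fin.consEquiv fun _ : Fin (T + 1) => A) f).symm

theorem mom1 (h1 : av ξ = 0) (T : ℕ) : av (fun α : Fin T → A => ∑ t, ξ (α t)) = 0 := by
  rw [av_sum]
  refine Finset.sum_eq_zero fun t _ => ?_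
  exact (av_marg (S := fun _ : Fin T => A) t ξ).trans h1

theorem mom2 (h1 : av ξ = 0) {κ : ℝ} (h2 : av (fun a => ξ a ^ 2) = κ) (T : ℕ) :
    av (fun α : Fin T → A => (∑ t, ξ (α t)) ^ 2) = T * κ := by
  induction T with
  | zero => simp [av_const]
  | succ T ih =>
    rw [av_succ]
    have : ∀ a : A, av (fun α : Fin T → A => (∑ t, ξ ((Fin.cons a α : Fin (T + 1) → A) t)) ^ 2) =
        ξ a ^ 2 + T * κ := by
      intro a
      have e : (fun α : Fin T → A => (∑ t, ξ ((Fin.cons a α : Fin (T + 1) → A) t)) ^ 2) =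
          fun α => ξ a ^ 2 + (2 * ξ a * (∑ t, ξ (α t)) + (∑ t, ξ (α t)) ^ 2) := by
        funext α
        rw [Fin.sum_univ_succ]
        simp only [Fin.cons_zero, Fin.cons_succ]
        ring
      rw [e, av_add, av_add, av_const, av_mul_left, mom1 ξ h1, ih]
      ring
    simp only [this]
    rw [av_add, h2, av_const]
    push_cast
    ring

theorem mom4 (h1 : av ξ = 0) {κ : ℝ} (h2 : av (fun a => ξ a ^ 2) = κ)
    (h4 : av (fun a => ξ a ^ 4) = κ) (T : ℕ) :
    av (fun α : Fin T → A => (∑ t, ξ (α t)) ^ 4) = T * κ + 3 * T * (T - 1) * κ ^ 2 := by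
  induction T with
  | zero => simp [av_const]
  | succ T ih =>
    rw [av_succ]
    have e : ∀ a : A, av (fun α : Fin T → A =>
        (∑ t, ξ ((Fin.cons a α : Fin (T + 1) → A) t)) ^ 4) =
        ξ a ^ 4 + 6 * (T * κ) * ξ a ^ 2 + 4 * (av fun α : Fin T → A => (∑ t, ξ (α t)) ^ 3) * ξ a +
          (T * κ + 3 * T * (T - 1) * κ ^ 2) := by
      intro a
      have e : (fun α : Fin T → A => (∑ t, ξ ((Fin.cons a α : Fin (T + 1) → A) t)) ^ 4) =
          fun α => ξ a ^ 4 + (4 * ξ a ^ 3 * (∑ t, ξ (α t)) + (6 * ξ a ^ 2 * (∑ t, ξ (α t)) ^ 2 +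
            (4 * ξ a * (∑ t, ξ (α t)) ^ 3 + (∑ t, ξ (α t)) ^ 4))) := by
        funext α
        rw [Fin.sum_univ_succ]
        simp only [Fin.cons_zero, Fin.cons_succ]
        ring
      rw [e, av_add, av_add, av_add, av_add, av_const, av_mul_left, av_mul_left, av_mul_left,
        mom1 ξ h1, mom2 ξ h1 h2, ih]
      ring
    simp only [e]
    rw [av_add, av_add, av_add, av_mul_left, av_mul_left, av_const, h1, h2, h4]
    push_cast
    ring

/-- the mean absolute value of a lazy random walk -/
theorem abs_lower_aux (h1 : av ξ = 0) {κ : ℝ} (h2 : av (fun a => ξ a ^ 2) = κ)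
    (h4 : av (fun a => ξ a ^ 4) = κ) (T : ℕ) {r : ℝ} (hr0 : 0 < r) :
    (3 / 4) * (T * κ / r) - (1 / 16) * ((T * κ + 3 * (T * κ) ^ 2) / r ^ 3) ≤
      av (fun α : Fin T → A => |∑ t, ξ (α t)|) := by
  set l : ℝ := T * κ with hl
  have hpt : ∀ s : ℝ, (3 / 4) * (s ^ 2 / r) - (1 / 16) * (s ^ 4 / r ^ 3) ≤ |s| := by
    intro s
    have h0 : 0 ≤ |s| := abs_nonneg s
    have e2 : s ^ 2 = |s| ^ 2 := (sq_abs s).symm
    have e4 : s ^ 4 = |s| ^ 4 := by
      have : s ^ 4 = (s ^ 2) ^ 2 := by ring
      rw [this, e2]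
      ring
    rw [e2, e4]
    set u := |s|
    have e : u - ((3 / 4) * (u ^ 2 / r) - (1 / 16) * (u ^ 4 / r ^ 3)) =
        u * (u - 2 * r) ^ 2 * (u + 4 * r) / (16 * r ^ 3) := by
      field_simp
      ring
    have h' : 0 ≤ u * (u - 2 * r) ^ 2 * (u + 4 * r) / (16 * r ^ 3) := by positivity
    linarith
  have hav := av_mono (A := Fin T → A) (fun α => hpt (∑ t, ξ (α t)))
  have e : av (fun α : Fin T → A => (3 / 4) * ((∑ t, ξ (α t)) ^ 2 / r) -
      (1 / 16) * ((∑ t, ξ (α t)) ^ 4 / r ^ 3)) =
      (3 / 4) * (l / r) - (1 / 16) * ((l + 3 * T * (T - 1) * κ ^ 2) / r ^ 3) := by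
    have e1 : (fun α : Fin T → A => (3 / 4) * ((∑ t, ξ (α t)) ^ 2 / r) -
      (1 / 16) * ((∑ t, ξ (α t)) ^ 4 / r ^ 3)) = fun α => (3 / (4 * r)) * (∑ t, ξ (α t)) ^ 2 -
        (1 / (16 * r ^ 3)) * (∑ t, ξ (α t)) ^ 4 := by
      funext α
      field_simp
    rw [e1, av_sub, av_mul_left, av_mul_left, mom2 ξ h1 h2, mom4 ξ h1 h2 h4, ← hl]
    field_simp
  rw [e] at hav
  refine le_trans ?_ hav
  have hTκ : 3 * (T : ℝ) * (T - 1) * κ ^ 2 ≤ 3 * l ^ 2 := by
    have : (0 : ℝ) ≤ T * κ ^ 2 := by positivity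
    rw [hl]
    nlinarith
  have h5 : (l + 3 * T * (T - 1) * κ ^ 2) / r ^ 3 ≤ (l + 3 * l ^ 2) / r ^ 3 :=
    div_le_div_of_nonneg_right (by linarith) (by positivity)
  linarith

theorem abs_lower (h1 : av ξ = 0) {κ : ℝ} (h2 : av (fun a => ξ a ^ 2) = κ)
    (h4 : av (fun a => ξ a ^ 4) = κ) (T : ℕ) (hκ : 0 ≤ κ) :
    min (√(T * κ)) (T * κ) / 2 ≤ av (fun α : Fin T → A => |∑ t, ξ (α t)|) := by
  set l : ℝ := T * κ with hl
  have hl00 : 0 ≤ l := by positivity
  rcases le_total 1 l with h | h
  · have hl0 : 0 < l := lt_of_lt_of_le one_pos h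
    have hr0 : 0 < √l := Real.sqrt_pos.2 hl0
    have hr2 : √l ^ 2 = l := Real.sq_sqrt hl0.le
    have h6 := abs_lower_aux ξ h1 h2 h4 T hr0
    rw [← hl] at h6
    refine le_trans ?_ h6
    have h7 : l / √l = √l := Real.div_sqrt
    have h8 : (l + 3 * l ^ 2) / √l ^ 3 ≤ 4 * √l := by
      rw [div_le_iff₀ (by positivity)]
      have : 4 * √l * √l ^ 3 = 4 * (√l ^ 2) ^ 2 := by ring
      rw [this, hr2]
      nlinarith
    rw [h7]
    have h9 := min_le_left (√l) l
    linarith
  · have h6 := abs_lower_aux ξ h1 h2 h4 T one_pos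
    rw [← hl] at h6
    refine le_trans ?_ h6
    have h9 := min_le_right (√l) l
    simp only [one_pow, div_one]
    nlinarith

end mom

end Pool.Agent.V11278.Cache
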