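import Pool.Agent.V11278.Cache.Lower

/-!
# Online caching in bipartite networks: the minimax regret
-/

set_option autoImplicit false
set_option linter.unusedSectionVars false

open Finset

namespace Pool.Agent.V11278.Cache

variable {I J F : Type} [Fintype I] [Fintype J] [Fintype F] [DecidableEq I] [DecidableEq J]
  [DecidableEq F]

section

variable [Nonempty J] (adj : J → Finset I) (C T : ℕ) [NeZero C] (des : J → I)
  (e : J × (Fin C × Bool) ↪ F)

/-- the mean reward per slot without fluctuations -/
noncomputable def base : ℝ :=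
  ∑ j, 1 / (2 * (deg adj (des j) : ℝ)) + ∑ i, (mm adj des i : ℝ) / (2 * Fintype.card J)

theorem av_nonact (i : I) (z : ℝ) :
    av (fun a : A adj C i => if des a.1.1 = i then (0 : ℝ) else deg adj i * z) =
      mm adj des i * z := by
  by_cases hi : deg adj i = 0
  · have h1 : mm adj des i = 0 := by
      have h2 : nbr adj i = ∅ := Finset.card_eq_zero.1 hi
      simp [mm, h2]
    rw [h1, hi]
    simp [av_const]
  · have hnb : nb adj i = nbr adj i := if_neg hi
    have hd : (deg adj i : ℝ) ≠ 0 := Nat.cast_ne_zero.2 hi
    rw [av_prod]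
    have h1 : (fun a : {j // j ∈ nb adj i} => av fun _ : Fin C × Bool =>
        if des a.1 = i then (0 : ℝ) else deg adj i * z) =
        fun a => if des a.1 = i then (0 : ℝ) else deg adj i * z := by
      funext a
      exact av_const _
    rw [show (fun a : {j // j ∈ nb adj i} => av fun b : Fin C × Bool =>
        if des ((a, b) : A adj C i).1.1 = i then (0 : ℝ) else deg adj i * z) = _ from h1,
      av_subtype (nb adj i) (fun j => if des j = i then (0 : ℝ) else deg adj i * z), hnb]
    have h2 : ∑ j ∈ nbr adj i, (if des j = i then (0 : ℝ) else deg adj i * z) =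
        mm adj des i * (deg adj i * z) := by
      unfold mm
      rw [Finset.card_filter, Nat.cast_sum, Finset.sum_mul]
      refine Finset.sum_congr rfl fun j _ => ?_
      by_cases h : des j = i
      · simp [h]
      · simp [h]
    rw [h2]
    have h3 : ((nbr adj i).card : ℝ) = deg adj i := rfl
    rw [h3]
    field_simp

theorem av_ind (ω : ∀ i, Fin T → A adj C i) (i : I) :
    av (fun q : J × (Fin C × Bool) => if q.1 ∈ nbr adj i ∧
      q.2.2 = sel adj C T des ω q.1 q.2.1 then (1 : ℝ) else 0) =
      deg adj i * (1 / (2 * Fintype.card J)) := by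
  have hC : (C : ℝ) ≠ 0 := Nat.cast_ne_zero.2 (NeZero.ne C)
  have hJ : (Fintype.card J : ℝ) ≠ 0 := Nat.cast_ne_zero.2 Fintype.card_ne_zero
  unfold av
  rw [Fintype.sum_prod_type]
  have h1 : ∀ j : J, ∑ c : Fin C × Bool, (if j ∈ nbr adj i ∧ c.2 = sel adj C T des ω j c.1
      then (1 : ℝ) else 0) = if j ∈ nbr adj i then (C : ℝ) else 0 := by
    intro j
    rw [Fintype.sum_prod_type]
    by_cases h : j ∈ nbr adj i
    · simp [h]
    · simp [h]
  simp only [h1]
  rw [← Finset.sum_filter, Finset.sum_const, nsmul_eq_mul]
  have h2 : (univ.filter fun j => j ∈ nbr adj i).card = deg adj i := by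
    rw [Finset.filter_mem_eq_inter, Finset.univ_inter]
    rfl
  rw [h2, Fintype.card_prod, Fintype.card_prod, Fintype.card_fin, Fintype.card_bool]
  push_cast
  field_simp

theorem bench (hdes : ∀ j, des j ∈ adj j) :
    T * base adj des + (1 / 4) * ∑ j, min (√(C * T / deg adj (des j))) (T / deg adj (des j)) ≤
      av (fun ω : (∀ i, Fin T → A adj C i) => av (fun p : (∀ _ : I, Fin T → J × (Fin C × Bool)) =>
        ∑ t, reward adj (req adj C T des e ω p t) (yb adj C T des e ω))) := by
  have hC0 : (0 : ℝ) < C := Nat.cast_pos.2 (Nat.pos_of_ne_zero (NeZero.ne C))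
  have hJ : (0 : ℝ) < Fintype.card J := Nat.cast_pos.2 Fintype.card_pos
  -- for fixed ω
  have h1 : ∀ ω : (∀ i, Fin T → A adj C i),
      av (fun p : (∀ _ : I, Fin T → J × (Fin C × Bool)) =>
        ∑ t, reward adj (req adj C T des e ω p t) (yb adj C T des e ω)) =
      (∑ j, ∑ c, X adj C T des ω j (c, sel adj C T des ω j c)) +
        ∑ t, ∑ i, (if des (ω i t).1.1 = i then (0 : ℝ)
          else deg adj i * (1 / (2 * Fintype.card J))) := by
    intro ω
    rw [← X_sum, ← Finset.sum_add_distrib, av_sum]
    refine Finset.sum_congr rfl fun t _ => ?_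
    unfold reward
    rw [← Finset.sum_add_distrib, av_sum]
    refine Finset.sum_congr rfl fun i _ => ?_
    have h2 : ∀ p : (∀ _ : I, Fin T → J × (Fin C × Bool)),
        min 1 (∑ j ∈ nbr adj i, yb adj C T des e ω j (req adj C T des e ω p t i)) =
        if (qq adj C T des ω p t i).1 ∈ nbr adj i ∧ (qq adj C T des ω p t i).2.2 =
          sel adj C T des ω (qq adj C T des ω p t i).1 (qq adj C T des ω p t i).2.1
            then (1 : ℝ) else 0 := by
      intro p
      have h3 := tot_yb adj C T des e ω i (qq adj C T des ω p t i)
      unfold tot at h3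
      rw [show req adj C T des e ω p t i = e (qq adj C T des ω p t i) from rfl, h3]
      split_ifs <;> simp
    simp only [h2]
    by_cases hact : des (ω i t).1.1 = i
    · have h4 : (ω i t).1.1 ∈ nbr adj i := by
        simp only [nbr, mem_filter, mem_univ, true_and]
        have := hdes (ω i t).1.1
        rwa [hact] at this
      have h5 : ∀ p, qq adj C T des ω p t i = ((ω i t).1.1, (ω i t).2) := fun p => if_pos hact
      simp only [h5, h4, hact, true_and, if_true, add_zero]
      rw [av_const]
    · have h5 : ∀ p, qq adj C T des ω p t i = p i t := fun p => if_neg hact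
      simp only [h5, hact, false_and, if_false, zero_add]
      rw [av_marg2 (S := fun _ : I => J × (Fin C × Bool)) i t
        (fun q : J × (Fin C × Bool) => if q.1 ∈ nbr adj i ∧
          q.2.2 = sel adj C T des ω q.1 q.2.1 then (1 : ℝ) else 0)]
      exact av_ind adj C T des ω i
  simp only [h1]
  rw [av_add]
  have h6 : av (fun ω : (∀ i, Fin T → A adj C i) => ∑ t : Fin T, ∑ i,
      (if des (ω i t).1.1 = i then (0 : ℝ) else deg adj i * (1 / (2 * Fintype.card J)))) =
      T * ∑ i, (mm adj des i : ℝ) / (2 * Fintype.card J) := by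
    rw [av_sum]
    have h7 : ∀ t : Fin T, av (fun ω : (∀ i, Fin T → A adj C i) => ∑ i,
        (if des (ω i t).1.1 = i then (0 : ℝ) else deg adj i * (1 / (2 * Fintype.card J)))) =
        ∑ i, (mm adj des i : ℝ) / (2 * Fintype.card J) := by
      intro t
      rw [av_sum]
      refine Finset.sum_congr rfl fun i _ => ?_
      rw [av_marg2 (S := fun i => A adj C i) i t (fun a : A adj C i =>
        if des a.1.1 = i then (0 : ℝ) else deg adj i * (1 / (2 * Fintype.card J))),
        av_nonact adj C des i]
      ring
    simp only [h7, Finset.sum_const, Finset.card_univ, Fintype.card_fin, nsmul_eq_mul]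
  rw [h6]
  have h8 : ∀ (j : J) (c : Fin C), T / (2 * C * deg adj (des j)) +
      min (√(T / (C * deg adj (des j)))) (T / (C * deg adj (des j))) / 4 ≤
      av (fun ω : (∀ i, Fin T → A adj C i) => X adj C T des ω j (c, sel adj C T des ω j c)) := by
    intro j c
    simp only [X_sel]
    have h9 := av_abs adj C T des hdes j c
    have h10 : (fun ω : (∀ i, Fin T → A adj C i) => (X adj C T des ω j (c, true) +
        X adj C T des ω j (c, false) +
        |X adj C T des ω j (c, true) - X adj C T des ω j (c, false)|) / 2) = fun ω =>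
        (1 / 2) * ((X adj C T des ω j (c, true) + X adj C T des ω j (c, false)) +
        |X adj C T des ω j (c, true) - X adj C T des ω j (c, false)|) := by
      funext ω
      ring
    rw [h10, av_mul_left, av_add, av_add, av_X adj C T des hdes, av_X adj C T des hdes]
    linarith
  have h11 : ∑ j, (T * (1 / (2 * (deg adj (des j) : ℝ))) +
      (1 / 4) * min (√(C * T / deg adj (des j))) (T / deg adj (des j))) ≤
      av (fun ω : (∀ i, Fin T → A adj C i) => ∑ j, ∑ c, X adj C T des ω j
        (c, sel adj C T des ω j c)) := by
    rw [av_sum]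
    refine Finset.sum_le_sum fun j _ => ?_
    rw [av_sum]
    have hD : (0 : ℝ) < deg adj (des j) :=
      Nat.cast_pos.2 (Nat.pos_of_ne_zero (deg_des_ne adj des hdes j))
    calc T * (1 / (2 * (deg adj (des j) : ℝ))) +
          (1 / 4) * min (√(C * T / deg adj (des j))) (T / deg adj (des j)) =
          ∑ _c : Fin C, (T / (2 * C * deg adj (des j)) +
            min (√(T / (C * deg adj (des j)))) (T / (C * deg adj (des j))) / 4) := by
          rw [Finset.sum_const, Finset.card_univ, Fintype.card_fin, nsmul_eq_mul]
          have e1 : √(C * T / deg adj (des j)) = C * √(T / (C * deg adj (des j))) := by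
            rw [show (C : ℝ) * T / deg adj (des j) = C ^ 2 * (T / (C * deg adj (des j))) by
              field_simp, Real.sqrt_mul (by positivity), Real.sqrt_sq hC0.le]
          have e2 : T / deg adj (des j) = C * (T / (C * (deg adj (des j) : ℝ))) := by
            field_simp
          rw [e1, e2, ← mul_min_of_nonneg _ _ hC0.le]
          field_simp
      _ ≤ _ := Finset.sum_le_sum fun c _ => h8 j c
  rw [Finset.sum_add_distrib, ← Finset.mul_sum, ← Finset.mul_sum] at h11
  unfold base
  rw [mul_add]
  linarith

/-! ### the policy -/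

theorem mean_le (hdes : ∀ j, des j ∈ adj j) (hmin : ∀ j, ∀ i ∈ adj j, deg adj (des j) ≤ deg adj i)
    (y : J → F → ℝ) (hy : Config C y) :
    ∑ i, av (fun a : A adj C i => av (fun q : J × (Fin C × Bool) =>
      tot adj y i (e (if des a.1.1 = i then (a.1.1, a.2) else q)))) ≤ base adj des := by
  have hC0 : (0 : ℝ) < C := Nat.cast_pos.2 (Nat.pos_of_ne_zero (NeZero.ne C))
  have hJ : (0 : ℝ) < Fintype.card J := Nat.cast_pos.2 Fintype.card_pos
  have hblock : ∀ k : J, ∑ j, ∑ c : Fin C × Bool, y k (e (j, c)) ≤ C := by
    intro k
    rw [← Fintype.sum_prod_type' (fun j c => y k (e (j, c)))]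
    calc ∑ q : J × (Fin C × Bool), y k (e (q.1, q.2)) = ∑ f ∈ univ.map e, y k f := by
          rw [Finset.sum_map]
      _ ≤ ∑ f, y k f := Finset.sum_le_sum_of_subset_of_nonneg (Finset.subset_univ _)
          fun f _ _ => (hy.1 k f).1
      _ ≤ C := hy.2 k
  -- mean over the pool
  have hW : ∀ i, av (fun q : J × (Fin C × Bool) => tot adj y i (e q)) ≤
      deg adj i * (1 / (2 * Fintype.card J)) := by
    intro i
    unfold av
    rw [Fintype.card_prod, Fintype.card_prod, Fintype.card_fin, Fintype.card_bool]
    have h1 : ∑ q : J × (Fin C × Bool), tot adj y i (e q) ≤ C * deg adj i := by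
      unfold tot
      rw [Finset.sum_comm]
      calc ∑ k ∈ nbr adj i, ∑ q : J × (Fin C × Bool), y k (e q) ≤ ∑ _k ∈ nbr adj i, (C : ℝ) := by
            refine Finset.sum_le_sum fun k _ => ?_
            have := hblock k
            rw [← Fintype.sum_prod_type' (fun j c => y k (e (j, c)))] at this
            exact this
        _ = C * deg adj i := by
            rw [Finset.sum_const, nsmul_eq_mul, mul_comm]
            rfl
    have hpos : (0 : ℝ) < ((Fintype.card J * (C * 2) : ℕ) : ℝ) := by
      push_cast
      exact mul_pos hJ (mul_pos hC0 two_pos)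
    rw [div_le_iff₀ hpos]
    push_cast
    calc ∑ q : J × (Fin C × Bool), tot adj y i (e q) ≤ C * deg adj i := h1
      _ = deg adj i * (1 / (2 * Fintype.card J)) * (Fintype.card J * (C * 2)) := by
          field_simp
  -- the designated part
  set Z : J → I → ℝ := fun k i => ∑ j, ∑ c : Fin C × Bool, if des j = i then y k (e (j, c)) else 0
    with hZ
  have hZ0 : ∀ k i, 0 ≤ Z k i := fun k i => Finset.sum_nonneg fun j _ =>
    Finset.sum_nonneg fun c _ => by
      split_ifs
      · exact (hy.1 _ _).1
      · exact le_refl _
  have hZs : ∀ k, ∑ i, Z k i ≤ C := by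
    intro k
    simp only [hZ]
    rw [Finset.sum_comm]
    refine le_trans (le_of_eq ?_) (hblock k)
    refine Finset.sum_congr rfl fun j _ => ?_
    rw [Finset.sum_comm]
    refine Finset.sum_congr rfl fun c _ => ?_
    rw [Finset.sum_ite_eq univ (des j), if_pos (mem_univ _)]
  have hR : ∀ i, av (fun a : A adj C i => if des a.1.1 = i then
      tot adj y i (e (a.1.1, a.2)) else 0) ≤
      ∑ k, (1 / (2 * C * deg adj (des k))) * Z k i := by
    intro i
    have hnn : 0 ≤ ∑ k, (1 / (2 * C * (deg adj (des k) : ℝ))) * Z k i :=
      Finset.sum_nonneg fun k _ => mul_nonneg (by positivity) (hZ0 k i)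
    by_cases hi : deg adj i = 0
    · have h1 : nbr adj i = ∅ := Finset.card_eq_zero.1 hi
      have h2 : ∀ f, tot adj y i f = 0 := fun f => by simp [tot, h1]
      simp only [h2, ite_self]
      rw [av_const]
      exact hnn
    · have hnb : nb adj i = nbr adj i := if_neg hi
      have hd : (0 : ℝ) < deg adj i := Nat.cast_pos.2 (Nat.pos_of_ne_zero hi)
      have h1 : av (fun a : A adj C i => if des a.1.1 = i then
          tot adj y i (e (a.1.1, a.2)) else 0) = (1 / (2 * C * deg adj i)) *
          ∑ k ∈ nbr adj i, Z k i := by
        unfold av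
        rw [Fintype.card_prod, Fintype.card_coe, Fintype.card_prod, Fintype.card_fin,
          Fintype.card_bool, Fintype.sum_prod_type]
        have hcard : (nb adj i).card = deg adj i := by rw [hnb]; rfl
        rw [hcard]
        have h2 : ∑ j : {j // j ∈ nb adj i}, ∑ c : Fin C × Bool,
            (if des j.1 = i then tot adj y i (e (j.1, c)) else 0) = ∑ k ∈ nbr adj i, Z k i := by
          rw [Finset.sum_coe_sort (nb adj i) (fun j => ∑ c : Fin C × Bool,
            (if des j = i then tot adj y i (e (j, c)) else 0)), hnb]
          have h3 : ∑ j ∈ nbr adj i, ∑ c : Fin C × Bool,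
              (if des j = i then tot adj y i (e (j, c)) else 0) =
              ∑ j, ∑ c : Fin C × Bool, (if des j = i then tot adj y i (e (j, c)) else 0) := by
            refine Finset.sum_subset (Finset.subset_univ _) fun j _ hj => ?_
            have : des j ≠ i := by
              intro h
              apply hj
              simp only [nbr, mem_filter, mem_univ, true_and]
              rw [← h]
              exact hdes j
            simp [this]
          rw [h3]
          simp only [hZ]
          rw [Finset.sum_comm (s := nbr adj i)]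
          refine Finset.sum_congr rfl fun j _ => ?_
          rw [Finset.sum_comm (s := nbr adj i)]
          refine Finset.sum_congr rfl fun c _ => ?_
          by_cases h : des j = i
          · simp [h, tot]
          · simp [h]
        rw [h2]
        push_cast
        field_simp
      rw [h1, Finset.mul_sum]
      calc ∑ k ∈ nbr adj i, (1 / (2 * C * (deg adj i : ℝ))) * Z k i ≤
            ∑ k ∈ nbr adj i, (1 / (2 * C * (deg adj (des k) : ℝ))) * Z k i := by
            refine Finset.sum_le_sum fun k hk => ?_
            refine mul_le_mul_of_nonneg_right ?_ (hZ0 k i)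
            have hk' : i ∈ adj k := by
              simp only [nbr, mem_filter, mem_univ, true_and] at hk
              exact hk
            have h2 : (deg adj (des k) : ℝ) ≤ deg adj i := by exact_mod_cast hmin k i hk'
            have h3 : (0 : ℝ) < deg adj (des k) :=
              Nat.cast_pos.2 (Nat.pos_of_ne_zero (deg_des_ne adj des hdes k))
            exact one_div_le_one_div_of_le (by positivity)
              (mul_le_mul_of_nonneg_left h2 (by positivity))
        _ ≤ ∑ k, (1 / (2 * C * (deg adj (des k) : ℝ))) * Z k i :=
            Finset.sum_le_sum_of_subset_of_nonneg (Finset.subset_univ _)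
              fun k _ _ => mul_nonneg (by positivity) (hZ0 k i)
  have hsplit : ∀ i, av (fun a : A adj C i => av (fun q : J × (Fin C × Bool) =>
      tot adj y i (e (if des a.1.1 = i then (a.1.1, a.2) else q)))) ≤
      ∑ k, (1 / (2 * C * deg adj (des k))) * Z k i + (mm adj des i : ℝ) / (2 * Fintype.card J) := by
    intro i
    have h1 : ∀ a : A adj C i, av (fun q : J × (Fin C × Bool) =>
        tot adj y i (e (if des a.1.1 = i then (a.1.1, a.2) else q))) ≤
        (if des a.1.1 = i then tot adj y i (e (a.1.1, a.2)) else 0) +
          (if des a.1.1 = i then (0 : ℝ) else (deg adj i : ℝ) * (1 / (2 * (Fintype.card J : ℝ)))) := by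
      intro a
      by_cases h : des a.1.1 = i
      · simp only [h, if_true, add_zero]
        rw [av_const]
      · simp only [h, if_false, zero_add]
        exact hW i
    refine (av_mono h1).trans ?_
    rw [av_add, av_nonact adj C des i]
    have h2 := hR i
    have h3 : (mm adj des i : ℝ) * (1 / (2 * Fintype.card J)) =
        (mm adj des i : ℝ) / (2 * Fintype.card J) := by ring
    linarith
  refine (Finset.sum_le_sum fun i _ => hsplit i).trans ?_
  rw [Finset.sum_add_distrib]
  unfold base
  refine add_le_add ?_ le_rfl
  rw [Finset.sum_comm]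
  refine Finset.sum_le_sum fun k _ => ?_
  rw [← Finset.mul_sum]
  have h3 : (0 : ℝ) < deg adj (des k) :=
    Nat.cast_pos.2 (Nat.pos_of_ne_zero (deg_des_ne adj des hdes k))
  calc 1 / (2 * C * (deg adj (des k) : ℝ)) * ∑ i, Z k i ≤ 1 / (2 * C * (deg adj (des k) : ℝ)) * C :=
        mul_le_mul_of_nonneg_left (hZs k) (by positivity)
    _ = 1 / (2 * (deg adj (des k) : ℝ)) := by field_simp

theorem policy_le (hdes : ∀ j, des j ∈ adj j)
    (hmin : ∀ j, ∀ i ∈ adj j, deg adj (des j) ≤ deg adj i) (π : Policy I J F C) :
    av (fun ω : (∀ i, Fin T → A adj C i) => av (fun p : (∀ _ : I, Fin T → J × (Fin C × Bool)) =>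
      ∑ t : Fin T, reward adj (req adj C T des e ω p t)
        (π.1 ((List.ofFn (req adj C T des e ω p)).take t)))) ≤ T * base adj des := by
  have h1 : ∀ t : Fin T, av (fun ω : (∀ i, Fin T → A adj C i) =>
      av (fun p : (∀ _ : I, Fin T → J × (Fin C × Bool)) => reward adj (req adj C T des e ω p t)
        (π.1 ((List.ofFn (req adj C T des e ω p)).take t)))) ≤ base adj des := by
    intro t
    set Y : (∀ i, Fin T → A adj C i) → (∀ _ : I, Fin T → J × (Fin C × Bool)) → J → F → ℝ :=
      fun ω p => π.1 ((List.ofFn (req adj C T des e ω p)).take t) with hY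
    have h2 : ∀ i, av (fun ω : (∀ i, Fin T → A adj C i) =>
        av (fun p : (∀ _ : I, Fin T → J × (Fin C × Bool)) =>
          tot adj (Y ω p) i (e (qq adj C T des ω p t i)))) =
        av (fun ω : (∀ i, Fin T → A adj C i) =>
        av (fun p : (∀ _ : I, Fin T → J × (Fin C × Bool)) =>
          av (fun a : A adj C i => av (fun q : J × (Fin C × Bool) =>
            tot adj (Y ω p) i (e (if des a.1.1 = i then (a.1.1, a.2) else q)))))) := by
      intro i
      rw [av_update2 i t (fun ω : (∀ i, Fin T → A adj C i) =>
        av (fun p : (∀ _ : I, Fin T → J × (Fin C × Bool)) =>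
          tot adj (Y ω p) i (e (qq adj C T des ω p t i))))]
      congr 1
      funext ω
      rw [av_comm (A := (∀ _ : I, Fin T → J × (Fin C × Bool))) (B := A adj C i)]
      congr 1
      funext a
      rw [av_update2 (S := fun _ : I => J × (Fin C × Bool)) i t
        (fun p => tot adj (Y (Function.update ω i (Function.update (ω i) t a)) p) i
          (e (qq adj C T des (Function.update ω i (Function.update (ω i) t a)) p t i)))]
      congr 1
      funext p
      congr 1
      funext q
      have h3 : Y (Function.update ω i (Function.update (ω i) t a))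
          (Function.update p i (Function.update (p i) t q)) = Y ω p := by
        simp only [hY]
        refine congrArg π.1 (take_congr _ _ t ?_)
        intro s hs
        funext k
        unfold req qq
        have hst : s ≠ t := ne_of_lt hs
        by_cases hk : k = i
        · subst hk
          simp only [Function.update_self, Function.update_of_ne hst]
        · simp only [Function.update_of_ne hk]
      rw [h3]
      unfold qq
      simp only [Function.update_self]
    calc av (fun ω : (∀ i, Fin T → A adj C i) =>
        av (fun p : (∀ _ : I, Fin T → J × (Fin C × Bool)) => reward adj (req adj C T des e ω p t)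
          (Y ω p))) ≤ av (fun ω : (∀ i, Fin T → A adj C i) =>
        av (fun p : (∀ _ : I, Fin T → J × (Fin C × Bool)) =>
          ∑ i, tot adj (Y ω p) i (e (qq adj C T des ω p t i)))) := by
          refine av_mono fun ω => av_mono fun p => ?_
          exact Finset.sum_le_sum fun i _ => min_le_right _ _
      _ = ∑ i, av (fun ω : (∀ i, Fin T → A adj C i) =>
        av (fun p : (∀ _ : I, Fin T → J × (Fin C × Bool)) =>
          tot adj (Y ω p) i (e (qq adj C T des ω p t i)))) := by
          simp only [av_sum]
      _ = ∑ i, av (fun ω : (∀ i, Fin T → A adj C i) =>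
        av (fun p : (∀ _ : I, Fin T → J × (Fin C × Bool)) =>
          av (fun a : A adj C i => av (fun q : J × (Fin C × Bool) =>
            tot adj (Y ω p) i (e (if des a.1.1 = i then (a.1.1, a.2) else q)))))) :=
          Finset.sum_congr rfl fun i _ => h2 i
      _ = av (fun ω : (∀ i, Fin T → A adj C i) =>
        av (fun p : (∀ _ : I, Fin T → J × (Fin C × Bool)) =>
          ∑ i, av (fun a : A adj C i => av (fun q : J × (Fin C × Bool) =>
            tot adj (Y ω p) i (e (if des a.1.1 = i then (a.1.1, a.2) else q)))))) := by
          simp only [av_sum]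
      _ ≤ av (fun _ω : (∀ i, Fin T → A adj C i) =>
        av (fun _p : (∀ _ : I, Fin T → J × (Fin C × Bool)) => base adj des)) :=
          av_mono fun ω => av_mono fun p => mean_le adj C des e hdes hmin _ (π.2 _)
      _ = base adj des := by rw [av_const, av_const]
  simp only [av_sum]
  calc _ ≤ ∑ _t : Fin T, base adj des := Finset.sum_le_sum fun t _ => h1 t
    _ = T * base adj des := by
        rw [Finset.sum_const, Finset.card_univ, Fintype.card_fin, nsmul_eq_mul]

include e in
theorem lower_des (hdes : ∀ j, des j ∈ adj j)
    (hmin : ∀ j, ∀ i ∈ adj j, deg adj (des j) ≤ deg adj i) :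
    (1 / 4) * ∑ j, min (√(C * T / deg adj (des j))) (T / deg adj (des j)) ≤
      minimaxRegret F adj C T := by
  have : Nonempty (Policy I J F C) := ⟨⟨fun _ _ _ => 0, fun _ => config_zero C⟩⟩
  refine le_ciInf fun π => ?_
  have h1 := bench adj C T des e hdes
  have h2 := policy_le adj C T des e hdes hmin π
  have h3 : (1 / 4) * ∑ j, min (√(C * T / deg adj (des j))) (T / deg adj (des j)) ≤
      av (fun w : (∀ i, Fin T → A adj C i) × (∀ _ : I, Fin T → J × (Fin C × Bool)) =>
        ∑ t, reward adj (req adj C T des e w.1 w.2 t) (yb adj C T des e w.1) -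
        ∑ t : Fin T, reward adj (req adj C T des e w.1 w.2 t)
          (π.1 ((List.ofFn (req adj C T des e w.1 w.2)).take t))) := by
    rw [av_prod]
    simp only [av_sub]
    linarith
  obtain ⟨w, hw⟩ := exists_ge_av
    (fun w : (∀ i, Fin T → A adj C i) × (∀ _ : I, Fin T → J × (Fin C × Bool)) =>
        ∑ t, reward adj (req adj C T des e w.1 w.2 t) (yb adj C T des e w.1) -
        ∑ t : Fin T, reward adj (req adj C T des e w.1 w.2 t)
          (π.1 ((List.ofFn (req adj C T des e w.1 w.2)).take t)))
  refine (h3.trans hw).trans ?_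
  unfold regret
  refine le_ciSup_of_le (bddAbove_regret adj C T π) (req adj C T des e w.1 w.2) ?_
  unfold regretOn
  refine sub_le_sub_right ?_ _
  exact le_ciSup (bddAbove_static adj C T (req adj C T des e w.1 w.2))
    ⟨yb adj C T des e w.1, config_yb adj C T des e w.1⟩

end

/-- **Lower bound.** -/
theorem lower [Nonempty J] (adj : J → Finset I) (C T d : ℕ) (hC : 1 ≤ C) (hd : 1 ≤ d)
    (hadj : ∀ j, (adj j).card = d) (hF : 2 * C * Fintype.card J ≤ Fintype.card F) :
    1 / (4 * d) * ∑ i, min (√(C * T * deg adj i)) (T : ℝ) ≤
      minimaxRegret F adj C T := by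
  have : NeZero C := ⟨by omega⟩
  have hex : ∀ j, ∃ i ∈ adj j, ∀ i' ∈ adj j, deg adj i ≤ deg adj i' := fun j =>
    Finset.exists_min_image (adj j) (deg adj) (Finset.card_pos.1 (by rw [hadj j]; exact hd))
  choose des hdes hmin using hex
  have hemb : Nonempty (J × (Fin C × Bool) ↪ F) := by
    rw [Function.Embedding.nonempty_iff_card_le]
    rw [Fintype.card_prod, Fintype.card_prod, Fintype.card_fin, Fintype.card_bool]
    calc Fintype.card J * (C * 2) = 2 * C * Fintype.card J := by ring
      _ ≤ _ := hF
  obtain ⟨e⟩ := hemb
  refine le_trans ?_ (lower_des adj C T des e hdes hmin)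
  have hd0 : (0 : ℝ) < d := by exact_mod_cast hd
  set g : ℕ → ℝ := fun D => min (√(C * T / D)) ((T : ℝ) / D) with hg
  have hganti : ∀ D D' : ℕ, 0 < D → D ≤ D' → g D' ≤ g D := by
    intro D D' h0 h
    have h0' : (0 : ℝ) < D := by exact_mod_cast h0
    have h' : (D : ℝ) ≤ D' := by exact_mod_cast h
    have hT0 : (0 : ℝ) ≤ T := Nat.cast_nonneg T
    refine min_le_min (Real.sqrt_le_sqrt ?_) ?_
    · exact div_le_div_of_nonneg_left (by positivity) h0' h'
    · exact div_le_div_of_nonneg_left hT0 h0' h'
  have h2 : ∀ i, min (√(C * T * deg adj i)) (T : ℝ) =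
      ∑ j, if i ∈ adj j then g (deg adj i) else 0 := by
    intro i
    rw [← Finset.sum_filter, Finset.sum_const, nsmul_eq_mul]
    show min (√(C * T * deg adj i)) (T : ℝ) = (deg adj i : ℝ) * g (deg adj i)
    rcases Nat.eq_zero_or_pos (deg adj i) with h | h
    · rw [h]
      simp
    · have h0 : (0 : ℝ) < deg adj i := by exact_mod_cast h
      simp only [hg]
      rw [mul_min_of_nonneg _ _ h0.le]
      congr 1
      · rw [show (C : ℝ) * T * deg adj i = (deg adj i : ℝ) ^ 2 * (C * T / deg adj i) by
          field_simp, Real.sqrt_mul (by positivity), Real.sqrt_sq h0.le]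
      · field_simp
  have h1 : ∑ i, min (√(C * T * deg adj i)) (T : ℝ) ≤ d * ∑ j, g (deg adj (des j)) := by
    calc ∑ i, min (√(C * T * deg adj i)) (T : ℝ) =
          ∑ i, ∑ j, if i ∈ adj j then g (deg adj i) else 0 :=
          Finset.sum_congr rfl fun i _ => h2 i
      _ = ∑ j, ∑ i, if i ∈ adj j then g (deg adj i) else 0 := Finset.sum_comm
      _ ≤ ∑ j, d * g (deg adj (des j)) := by
          refine Finset.sum_le_sum fun j _ => ?_
          rw [← Finset.sum_filter]
          have h3 : (univ.filter fun i => i ∈ adj j) = adj j := by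
            ext i
            simp
          rw [h3]
          calc ∑ i ∈ adj j, g (deg adj i) ≤ ∑ _i ∈ adj j, g (deg adj (des j)) := by
                refine Finset.sum_le_sum fun i hi => ?_
                exact hganti _ _ (Nat.pos_of_ne_zero (deg_des_ne adj des hdes j)) (hmin j i hi)
            _ = d * g (deg adj (des j)) := by
                rw [Finset.sum_const, hadj j, nsmul_eq_mul]
      _ = _ := by rw [Finset.mul_sum]
  calc 1 / (4 * (d : ℝ)) * ∑ i, min (√(C * T * deg adj i)) (T : ℝ) ≤
        1 / (4 * (d : ℝ)) * (d * ∑ j, g (deg adj (des j))) :=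
        mul_le_mul_of_nonneg_left h1 (by positivity)
    _ = 1 / 4 * ∑ j, g (deg adj (des j)) := by
        field_simp

end Pool.Agent.V11278.Cache
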