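import Pool.Agent.V11278.Cache.Upper

/-!
# Online caching in bipartite networks: the lower bound by random requests
-/

set_option autoImplicit false
set_option linter.unusedSectionVars false

open Finset

namespace Pool.Agent.V11278.Cache

variable {I J F : Type} [Fintype I] [Fintype J] [Fintype F] [DecidableEq I] [DecidableEq J]
  [DecidableEq F]

/-- the caches among which the user `i` samples -/
def nb (adj : J → Finset I) (i : I) : Finset J := if deg adj i = 0 then univ else nbr adj i

theorem nb_nonempty [Nonempty J] (adj : J → Finset I) (i : I) : (nb adj i).Nonempty := by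
  unfold nb
  split_ifs with h
  · exact Finset.univ_nonempty
  · exact Finset.card_pos.1 (Nat.pos_of_ne_zero h)

/-- the sample of one user in one slot -/
abbrev A (adj : J → Finset I) (C : ℕ) (i : I) : Type := {j // j ∈ nb adj i} × (Fin C × Bool)

instance [Nonempty J] (adj : J → Finset I) (C : ℕ) [NeZero C] (i : I) : Nonempty (A adj C i) := by
  obtain ⟨j, hj⟩ := nb_nonempty adj i
  exact ⟨⟨j, hj⟩, (0, true)⟩

theorem av_subtype {α : Type} (s : Finset α) (g : α → ℝ) :
    av (fun a : {a // a ∈ s} => g a.1) = (∑ a ∈ s, g a) / s.card := by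
  rw [av, Finset.sum_coe_sort s g, Fintype.card_coe]

/-- resampling of one user in one slot -/
theorem av_update2 {ι : Type} [Fintype ι] [DecidableEq ι] {T : ℕ} {S : ι → Type}
    [∀ i, Fintype (S i)] [∀ i, Nonempty (S i)] (i : ι) (t : Fin T)
    (f : (∀ k, Fin T → S k) → ℝ) :
    av f = av (fun ω => av fun a : S i => f (Function.update ω i (Function.update (ω i) t a))) := by
  rw [av_update i f]
  rw [av_update i (fun ω => av fun a : S i => f (Function.update ω i (Function.update (ω i) t a)))]
  congr 1
  funext ω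
  rw [av_update (S := fun _ : Fin T => S i) t (fun b => f (Function.update ω i b))]
  congr 1
  funext b
  simp only [Function.update_self, Function.update_idem]

theorem av_marg2 {ι : Type} [Fintype ι] [DecidableEq ι] {T : ℕ} {S : ι → Type}
    [∀ i, Fintype (S i)] [∀ i, Nonempty (S i)] (i : ι) (t : Fin T) (g : S i → ℝ) :
    av (fun ω : (∀ k, Fin T → S k) => g (ω i t)) = av g := by
  rw [av_marg (S := fun k => Fin T → S k) i (fun b => g (b t))]
  exact av_marg (S := fun _ : Fin T => S i) t g

theorem take_congr {β : Type} {T : ℕ} (x x' : Fin T → β) (t : Fin T)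
    (h : ∀ s : Fin T, s < t → x s = x' s) : (List.ofFn x).take t = (List.ofFn x').take t := by
  apply List.ext_getElem
  · simp
  · intro n h1 h2
    have hn : n < (t : ℕ) := by
      simp only [List.length_take, List.length_ofFn, lt_min_iff] at h1
      exact h1.1
    rw [List.getElem_take, List.getElem_take, List.getElem_ofFn, List.getElem_ofFn]
    exact h ⟨n, hn.trans t.2⟩ hn

section

variable [Nonempty J] (adj : J → Finset I) (C T : ℕ) [NeZero C] (des : J → I)
  (e : J × (Fin C × Bool) ↪ F)

/-- the requested block element -/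
def qq (ω : ∀ i, Fin T → A adj C i) (p : ∀ _ : I, Fin T → J × (Fin C × Bool)) (t : Fin T) (i : I) :
    J × (Fin C × Bool) :=
  if des (ω i t).1.1 = i then ((ω i t).1.1, (ω i t).2) else p i t

/-- the request sequence -/
def req (ω : ∀ i, Fin T → A adj C i) (p : ∀ _ : I, Fin T → J × (Fin C × Bool)) (t : Fin T) (i : I) :
    F := e (qq adj C T des ω p t i)

/-- the number of the counted requests -/
def X (ω : ∀ i, Fin T → A adj C i) (j : J) (c : Fin C × Bool) : ℝ :=
  ∑ t, if (ω (des j) t).1.1 = j ∧ (ω (des j) t).2 = c then 1 else 0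

open Classical in
/-- the more frequent element of the pair -/
noncomputable def sel (ω : ∀ i, Fin T → A adj C i) (j : J) (c : Fin C) : Bool :=
  decide (X adj C T des ω j (c, false) < X adj C T des ω j (c, true))

/-- the benchmark configuration -/
noncomputable def yb (ω : ∀ i, Fin T → A adj C i) (j : J) (f : F) : ℝ :=
  ∑ c : Fin C, if f = e (j, (c, sel adj C T des ω j c)) then 1 else 0

theorem config_yb (ω : ∀ i, Fin T → A adj C i) : Config C (yb adj C T des e ω) := by
  refine ⟨fun j f => ⟨Finset.sum_nonneg fun c _ => by split_ifs <;> norm_num, ?_⟩, fun j => ?_⟩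
  · unfold yb
    by_cases h : ∃ c, f = e (j, (c, sel adj C T des ω j c))
    · obtain ⟨c, hc⟩ := h
      rw [Finset.sum_eq_single c]
      · rw [if_pos hc]
      · intro c' _ hne
        rw [if_neg]
        intro h'
        have := e.injective (hc.symm.trans h')
        simp only [Prod.mk.injEq] at this
        exact hne this.2.1.symm
      · simp
    · push Not at h
      rw [Finset.sum_eq_zero fun c _ => if_neg (h c)]
      exact zero_le_one
  · unfold yb
    rw [Finset.sum_comm]
    simp

theorem tot_yb (ω : ∀ i, Fin T → A adj C i) (i : I) (q : J × (Fin C × Bool)) :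
    tot adj (yb adj C T des e ω) i (e q) =
      if q.1 ∈ nbr adj i ∧ q.2.2 = sel adj C T des ω q.1 q.2.1 then 1 else 0 := by
  have h1 : ∀ j, yb adj C T des e ω j (e q) =
      if q.1 = j ∧ q.2.2 = sel adj C T des ω q.1 q.2.1 then 1 else 0 := by
    intro j
    unfold yb
    have : ∀ c, (e q = e (j, (c, sel adj C T des ω j c))) ↔
        (q.1 = j ∧ q.2.1 = c ∧ q.2.2 = sel adj C T des ω j c) := by
      intro c
      rw [e.injective.eq_iff]
      constructor
      · intro h
        rw [h]
        exact ⟨rfl, rfl, rfl⟩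
      · rintro ⟨h1, h2, h3⟩
        exact Prod.ext h1 (Prod.ext h2 h3)
    simp only [this]
    rw [Finset.sum_eq_single q.2.1]
    · by_cases h : q.1 = j
      · subst h
        simp
      · simp [h]
    · intro c _ hne
      rw [if_neg]
      rintro ⟨_, h, _⟩
      exact hne h.symm
    · simp
  unfold tot
  simp only [h1]
  by_cases hs : q.2.2 = sel adj C T des ω q.1 q.2.1
  · simp [hs]
  · simp [hs]

/-- the number of the non-designated caches of `i` -/
def mm (i : I) : ℕ := ((nbr adj i).filter fun j => des j ≠ i).card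

/-! ### the benchmark -/

theorem X_sum (ω : ∀ i, Fin T → A adj C i) :
    ∑ t, ∑ i, (if des (ω i t).1.1 = i ∧ (ω i t).2.2 = sel adj C T des ω (ω i t).1.1 (ω i t).2.1
      then (1 : ℝ) else 0) = ∑ j, ∑ c, X adj C T des ω j (c, sel adj C T des ω j c) := by
  unfold X
  have h1 : ∀ t : Fin T, ∑ i, (if des (ω i t).1.1 = i ∧
      (ω i t).2.2 = sel adj C T des ω (ω i t).1.1 (ω i t).2.1 then (1 : ℝ) else 0) =
      ∑ j, ∑ c : Fin C, if (ω (des j) t).1.1 = j ∧
        (ω (des j) t).2 = (c, sel adj C T des ω j c) then (1 : ℝ) else 0 := by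
    intro t
    have h2 : ∀ j : J, (∑ c : Fin C, if (ω (des j) t).1.1 = j ∧
        (ω (des j) t).2 = (c, sel adj C T des ω j c) then (1 : ℝ) else 0) =
        ∑ i, if i = des j then (if (ω i t).1.1 = j ∧
          (ω i t).2.2 = sel adj C T des ω j (ω i t).2.1 then (1 : ℝ) else 0) else 0 := by
      intro j
      rw [Finset.sum_ite_eq' univ (des j), if_pos (mem_univ _),
        Finset.sum_eq_single (ω (des j) t).2.1]
      · congr 1
        rw [eq_iff_iff]
        constructor
        · rintro ⟨h, h'⟩
          exact ⟨h, by rw [h']⟩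
        · rintro ⟨h, h'⟩
          exact ⟨h, Prod.ext rfl h'⟩
      · intro c _ hne
        rw [if_neg]
        rintro ⟨_, h⟩
        apply hne
        rw [h]
      · simp
    simp only [h2]
    rw [Finset.sum_comm]
    refine Finset.sum_congr rfl fun i _ => ?_
    rw [Finset.sum_eq_single (ω i t).1.1]
    · by_cases h : des (ω i t).1.1 = i
      · simp [h]
      · simp [h, Ne.symm h]
    · intro j _ hne
      split_ifs with h3 h4
      · exact absurd h4.1.symm hne
      · rfl
      · rfl
    · simp
  simp only [h1]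
  rw [Finset.sum_comm]
  refine Finset.sum_congr rfl fun j _ => ?_
  rw [Finset.sum_comm]

theorem X_sel (ω : ∀ i, Fin T → A adj C i) (j : J) (c : Fin C) :
    X adj C T des ω j (c, sel adj C T des ω j c) = (X adj C T des ω j (c, true) +
      X adj C T des ω j (c, false) +
        |X adj C T des ω j (c, true) - X adj C T des ω j (c, false)|) / 2 := by
  unfold sel
  by_cases h : X adj C T des ω j (c, false) < X adj C T des ω j (c, true)
  · rw [decide_eq_true h, abs_of_pos (sub_pos.2 h)]
    ring
  · rw [decide_eq_false h, abs_of_nonpos (sub_nonpos.2 (not_lt.1 h))]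
    ring

theorem av_block (i : I) (hi : deg adj i ≠ 0) {j : J} (hj : j ∈ nbr adj i) (c : Fin C × Bool) :
    av (fun a : A adj C i => if a.1.1 = j ∧ a.2 = c then (1 : ℝ) else 0) =
      1 / (2 * C * deg adj i) := by
  have hnb : nb adj i = nbr adj i := if_neg hi
  have hC : (C : ℝ) ≠ 0 := Nat.cast_ne_zero.2 (NeZero.ne C)
  have hd : (deg adj i : ℝ) ≠ 0 := Nat.cast_ne_zero.2 hi
  unfold av
  rw [Fintype.card_prod, Fintype.card_coe, Fintype.card_prod, Fintype.card_fin, Fintype.card_bool]
  have hj' : j ∈ nb adj i := by rw [hnb]; exact hj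
  rw [Finset.sum_eq_single (⟨⟨j, hj'⟩, c⟩ : A adj C i)]
  · simp only [and_self, if_true]
    have : (nb adj i).card = deg adj i := by rw [hnb]; rfl
    rw [this]
    push_cast
    field_simp
  · rintro ⟨⟨a, ha⟩, b⟩ _ hne
    rw [if_neg]
    rintro ⟨h1, h2⟩
    apply hne
    simp only at h1 h2
    subst h1 h2
    rfl
  · simp

theorem deg_des_ne (hdes : ∀ j, des j ∈ adj j) (j : J) : deg adj (des j) ≠ 0 := by
  apply Finset.card_ne_zero_of_mem (a := j)
  simp only [nbr, mem_filter, mem_univ, true_and]
  exact hdes j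

theorem av_X (hdes : ∀ j, des j ∈ adj j) (j : J) (c : Fin C × Bool) :
    av (fun ω : (∀ i, Fin T → A adj C i) => X adj C T des ω j c) =
      T / (2 * C * deg adj (des j)) := by
  unfold X
  rw [av_sum]
  have h : ∀ t : Fin T, av (fun ω : (∀ i, Fin T → A adj C i) =>
      if (ω (des j) t).1.1 = j ∧ (ω (des j) t).2 = c then (1 : ℝ) else 0) =
      1 / (2 * C * deg adj (des j)) := by
    intro t
    rw [av_marg2 (S := fun i => A adj C i) (des j) t
      (fun a : A adj C (des j) => if a.1.1 = j ∧ a.2 = c then (1 : ℝ) else 0)]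
    exact av_block adj C (des j) (deg_des_ne adj des hdes j)
      (by simp only [nbr, mem_filter, mem_univ, true_and]; exact hdes j) c
  simp only [h, Finset.sum_const, Finset.card_univ, Fintype.card_fin, nsmul_eq_mul]
  ring

theorem av_abs (hdes : ∀ j, des j ∈ adj j) (j : J) (c : Fin C) :
    min (√(T / (C * deg adj (des j)))) (T / (C * deg adj (des j))) / 2 ≤ av (fun ω : (∀ i, Fin T → A adj C i) =>
      |X adj C T des ω j (c, true) - X adj C T des ω j (c, false)|) := by
  set i := des j with hi
  have hd : deg adj i ≠ 0 := deg_des_ne adj des hdes j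
  have hj : j ∈ nbr adj i := by
    simp only [nbr, mem_filter, mem_univ, true_and]
    exact hdes j
  have hC0 : (0 : ℝ) < C := Nat.cast_pos.2 (Nat.pos_of_ne_zero (NeZero.ne C))
  have hd0 : (0 : ℝ) < deg adj i := Nat.cast_pos.2 (Nat.pos_of_ne_zero hd)
  set ξ : A adj C i → ℝ := fun a => (if a.1.1 = j ∧ a.2 = (c, true) then (1 : ℝ) else 0) -
    (if a.1.1 = j ∧ a.2 = (c, false) then (1 : ℝ) else 0) with hξ
  have h1 : av ξ = 0 := by
    rw [hξ, av_sub, av_block adj C i hd hj, av_block adj C i hd hj, sub_self]
  have hsq : ∀ a, ξ a ^ 2 = (if a.1.1 = j ∧ a.2 = (c, true) then (1 : ℝ) else 0) +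
      (if a.1.1 = j ∧ a.2 = (c, false) then (1 : ℝ) else 0) := by
    intro a
    simp only [hξ]
    by_cases h2 : a.1.1 = j ∧ a.2 = (c, true)
    · have h3 : ¬ (a.1.1 = j ∧ a.2 = (c, false)) := by
        rintro ⟨_, h⟩
        rw [h2.2] at h
        simp at h
      rw [if_pos h2, if_neg h3]
      norm_num
    · rw [if_neg h2]
      split_ifs <;> norm_num
  have h4 : ∀ a, ξ a ^ 4 = ξ a ^ 2 := by
    intro a
    simp only [hξ]
    split_ifs <;> norm_num
  have h2 : av (fun a => ξ a ^ 2) = 1 / (C * deg adj i) := by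
    simp only [hsq]
    rw [av_add, av_block adj C i hd hj, av_block adj C i hd hj]
    field_simp
    norm_num
  have h5 : av (fun a => ξ a ^ 4) = 1 / (C * deg adj i) := by
    simp only [h4]
    exact h2
  have h6 := abs_lower ξ h1 h2 h5 T (by positivity)
  rw [mul_one_div] at h6
  refine h6.trans (le_of_eq ?_)
  rw [← av_marg (S := fun i => Fin T → A adj C i) i (fun α => |∑ t, ξ (α t)|)]
  congr 1
  funext ω
  congr 1
  simp only [hξ, X]
  rw [Finset.sum_sub_distrib]

end

end Pool.Agent.V11278.Cache
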