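import Pool.Agent.V11278.Cache.Def

/-!
# Online caching in bipartite networks: the upper bound by projected gradient ascent
-/

set_option autoImplicit false
set_option linter.unusedSectionVars false

open Finset

namespace Pool.Agent.V11278.Cache

variable {I J F : Type} [Fintype I] [Fintype J] [Fintype F] [DecidableEq I] [DecidableEq J]
  [DecidableEq F]

/-- the amount of the file `f` in the caches adjacent to `i` -/
def tot (adj : J → Finset I) (y : J → F → ℝ) (i : I) (f : F) : ℝ := ∑ j ∈ nbr adj i, y j f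

theorem config_zero (C : ℕ) : Config C (fun (_ : J) (_ : F) => (0 : ℝ)) :=
  ⟨fun _ _ => ⟨le_refl _, zero_le_one⟩, fun _ => by simp⟩

theorem tot_nonneg (adj : J → Finset I) {C : ℕ} {y : J → F → ℝ} (hy : Config C y) (i : I) (f : F) :
    0 ≤ tot adj y i f :=
  Finset.sum_nonneg fun j _ => (hy.1 j f).1

theorem sum_tot_le (adj : J → Finset I) {C : ℕ} {y : J → F → ℝ} (hy : Config C y) (i : I) :
    ∑ f, tot adj y i f ≤ C * deg adj i := by
  unfold tot
  rw [Finset.sum_comm]
  calc ∑ j ∈ nbr adj i, ∑ f, y j f ≤ ∑ _j ∈ nbr adj i, (C : ℝ) :=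
        Finset.sum_le_sum fun j _ => hy.2 j
    _ = C * deg adj i := by
        rw [Finset.sum_const, nsmul_eq_mul, mul_comm]
        rfl

theorem reward_nonneg (adj : J → Finset I) {C : ℕ} {y : J → F → ℝ} (hy : Config C y)
    (x : I → F) : 0 ≤ reward adj x y :=
  Finset.sum_nonneg fun i _ => le_min zero_le_one (tot_nonneg adj hy i (x i))

theorem reward_le (adj : J → Finset I) (y : J → F → ℝ) (x : I → F) :
    reward adj x y ≤ Fintype.card I := by
  unfold reward
  calc ∑ i, min 1 (∑ j ∈ nbr adj i, y j (x i)) ≤ ∑ _i : I, (1 : ℝ) :=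
        Finset.sum_le_sum fun i _ => min_le_left _ _
    _ = Fintype.card I := by simp

theorem bddAbove_static (adj : J → Finset I) (C T : ℕ) (x : Fin T → I → F) :
    BddAbove (Set.range fun y : {y : J → F → ℝ // Config C y} => ∑ t, reward adj (x t) y.1) := by
  refine ⟨T * Fintype.card I, ?_⟩
  rintro _ ⟨y, rfl⟩
  calc ∑ t, reward adj (x t) y.1 ≤ ∑ _t : Fin T, (Fintype.card I : ℝ) :=
        Finset.sum_le_sum fun t _ => reward_le adj _ _
    _ = T * Fintype.card I := by simp

theorem regretOn_lower (adj : J → Finset I) (C T : ℕ) (π : Policy I J F C) (x : Fin T → I → F) :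
    -(T * Fintype.card I : ℝ) ≤ regretOn adj C T π x := by
  unfold regretOn
  have h1 : (0 : ℝ) ≤ ⨆ y : {y : J → F → ℝ // Config C y}, ∑ t, reward adj (x t) y.1 :=
    le_ciSup_of_le (bddAbove_static adj C T x) ⟨_, config_zero C⟩
      (Finset.sum_nonneg fun t _ => reward_nonneg adj (config_zero C) _)
  have h2 : ∑ t : Fin T, reward adj (x t) (π.1 ((List.ofFn x).take t)) ≤ T * Fintype.card I :=
    calc _ ≤ ∑ _t : Fin T, (Fintype.card I : ℝ) := Finset.sum_le_sum fun t _ => reward_le adj _ _
    _ = T * Fintype.card I := by simp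
  linarith

theorem bddAbove_regret (adj : J → Finset I) (C T : ℕ) (π : Policy I J F C) :
    BddAbove (Set.range fun x : Fin T → I → F => regretOn adj C T π x) := by
  classical
  exact (Set.finite_range _).bddAbove

theorem regret_lower (adj : J → Finset I) (C T : ℕ) (π : Policy I J F C) :
    -(T * Fintype.card I : ℝ) ≤ regret adj C T π := by
  unfold regret
  rcases isEmpty_or_nonempty (Fin T → I → F) with h | h
  · rw [Real.iSup_of_isEmpty]
    have : (0 : ℝ) ≤ T * Fintype.card I := by positivity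
    linarith
  · obtain ⟨x⟩ := h
    exact le_ciSup_of_le (bddAbove_regret adj C T π) x (regretOn_lower adj C T π x)

theorem bddBelow_minimax (adj : J → Finset I) (C T : ℕ) :
    BddBelow (Set.range fun π : Policy I J F C => regret adj C T π) := by
  refine ⟨-(T * Fintype.card I : ℝ), ?_⟩
  rintro _ ⟨π, rfl⟩
  exact regret_lower adj C T π

section ascent

variable (adj : J → Finset I) (C : ℕ) (b : I → ℝ)

/-- the rescaled service vectors -/
def V : Set (EuclideanSpace ℝ (I × F)) :=
  {s | ∃ y : J → F → ℝ, Config C y ∧ ∀ i f, 0 ≤ s (i, f) ∧ s (i, f) ≤ b i * min 1 (tot adj y i f)}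

theorem zero_mem_V (hb : ∀ i, 0 ≤ b i) : (0 : EuclideanSpace ℝ (I × F)) ∈ V (F := F) adj C b := by
  refine ⟨fun _ _ => 0, config_zero C, fun i f => ⟨le_refl _, ?_⟩⟩
  have : tot adj (fun (_ : J) (_ : F) => (0 : ℝ)) i f = 0 := by simp [tot]
  rw [this, min_eq_right zero_le_one, mul_zero]
  exact le_refl _

theorem convex_V (hb : ∀ i, 0 ≤ b i) : Convex ℝ (V (F := F) adj C b) := by
  rintro s ⟨y, hy, hs⟩ s' ⟨y', hy', hs'⟩ p q hp hq hpq
  refine ⟨fun j f => p * y j f + q * y' j f, ⟨fun j f => ⟨?_, ?_⟩, fun j => ?_⟩, fun i f => ⟨?_, ?_⟩⟩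
  · have := (hy.1 j f).1
    have := (hy'.1 j f).1
    positivity
  · have h1 := (hy.1 j f).2
    have h2 := (hy'.1 j f).2
    nlinarith
  · have h1 := hy.2 j
    have h2 := hy'.2 j
    rw [Finset.sum_add_distrib, ← Finset.mul_sum, ← Finset.mul_sum]
    nlinarith
  · have h1 := (hs i f).1
    have h2 := (hs' i f).1
    have : (p • s + q • s') (i, f) = p * s (i, f) + q * s' (i, f) := rfl
    rw [this]
    positivity
  · have h1 := (hs i f).2
    have h2 := (hs' i f).2
    have e : (p • s + q • s') (i, f) = p * s (i, f) + q * s' (i, f) := rfl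
    have e2 : tot adj (fun j f => p * y j f + q * y' j f) i f =
        p * tot adj y i f + q * tot adj y' i f := by
      simp only [tot, Finset.sum_add_distrib, ← Finset.mul_sum]
    rw [e, e2]
    have h3 : p * min 1 (tot adj y i f) + q * min 1 (tot adj y' i f) ≤
        min 1 (p * tot adj y i f + q * tot adj y' i f) := by
      apply le_min
      · have h4 := min_le_left 1 (tot adj y i f)
        have h5 := min_le_left 1 (tot adj y' i f)
        nlinarith
      · have h4 := min_le_right 1 (tot adj y i f)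
        have h5 := min_le_right 1 (tot adj y' i f)
        nlinarith
    calc p * s (i, f) + q * s' (i, f) ≤ p * (b i * min 1 (tot adj y i f)) +
          q * (b i * min 1 (tot adj y' i f)) := by nlinarith
      _ = b i * (p * min 1 (tot adj y i f) + q * min 1 (tot adj y' i f)) := by ring
      _ ≤ _ := mul_le_mul_of_nonneg_left h3 (hb i)

theorem norm_le_V (hb : ∀ i, 0 ≤ b i) {s : EuclideanSpace ℝ (I × F)} (hs : s ∈ V adj C b) :
    ‖s‖ ^ 2 ≤ ∑ i, b i ^ 2 * (C * deg adj i) := by
  obtain ⟨y, hy, hs⟩ := hs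
  rw [EuclideanSpace.norm_sq_eq, Fintype.sum_prod_type]
  refine Finset.sum_le_sum fun i _ => ?_
  calc ∑ f, ‖s (i, f)‖ ^ 2 ≤ ∑ f, b i ^ 2 * tot adj y i f := by
        refine Finset.sum_le_sum fun f _ => ?_
        rw [Real.norm_eq_abs, sq_abs]
        have h1 := (hs i f).1
        have h2 := (hs i f).2
        have h3 : min 1 (tot adj y i f) ^ 2 ≤ tot adj y i f := by
          have h4 : 0 ≤ min 1 (tot adj y i f) := le_min zero_le_one (tot_nonneg adj hy i f)
          have h5 := min_le_left 1 (tot adj y i f)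
          have h6 := min_le_right 1 (tot adj y i f)
          nlinarith
        calc s (i, f) ^ 2 ≤ (b i * min 1 (tot adj y i f)) ^ 2 := pow_le_pow_left₀ h1 h2 2
          _ = b i ^ 2 * min 1 (tot adj y i f) ^ 2 := by ring
          _ ≤ _ := mul_le_mul_of_nonneg_left h3 (sq_nonneg _)
    _ = b i ^ 2 * ∑ f, tot adj y i f := by rw [Finset.mul_sum]
    _ ≤ _ := mul_le_mul_of_nonneg_left (sum_tot_le adj hy i) (sq_nonneg _)

theorem compact_V (hb : ∀ i, 0 ≤ b i) : IsCompact (V (F := F) adj C b) := by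
  set K : Set ((J → F → ℝ) × EuclideanSpace ℝ (I × F)) :=
    {p | ((∀ j f, 0 ≤ p.1 j f ∧ p.1 j f ≤ 1) ∧ ∀ j, ∑ f, p.1 j f ≤ C) ∧
      ∀ i f, 0 ≤ p.2 (i, f) ∧ p.2 (i, f) ≤ b i * min 1 (tot adj p.1 i f)} with hK
  have hVK : V (F := F) adj C b = Prod.snd '' K := by
    ext s
    constructor
    · rintro ⟨y, hy, hs⟩
      exact ⟨(y, s), ⟨hy, hs⟩, rfl⟩
    · rintro ⟨⟨y, s'⟩, ⟨hy, hs⟩, rfl⟩
      exact ⟨y, hy, hs⟩
  rw [hVK]
  refine IsCompact.image ?_ continuous_snd
  have hcl : IsClosed K := by
    rw [hK]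
    simp only [Set.setOf_and, Set.setOf_forall]
    refine IsClosed.inter (IsClosed.inter (isClosed_iInter fun j => isClosed_iInter fun f =>
      IsClosed.inter ?_ ?_) (isClosed_iInter fun j => ?_)) (isClosed_iInter fun i =>
      isClosed_iInter fun f => IsClosed.inter ?_ ?_)
    · exact isClosed_le continuous_const (by fun_prop)
    · exact isClosed_le (by fun_prop) continuous_const
    · exact isClosed_le (by fun_prop) continuous_const
    · exact isClosed_le continuous_const (by fun_prop)
    · refine isClosed_le (by fun_prop) ?_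
      unfold tot
      fun_prop
  refine IsCompact.of_isClosed_subset
    ((isCompact_univ_pi fun _ : J => isCompact_univ_pi fun _ : F => isCompact_Icc (a := (0 : ℝ))
      (b := 1)).prod (isCompact_closedBall (0 : EuclideanSpace ℝ (I × F))
        (√(∑ i, b i ^ 2 * (C * deg adj i))))) hcl ?_
  rintro ⟨y, s⟩ ⟨hy, hs⟩
  refine ⟨fun j _ f _ => hy.1 j f, ?_⟩
  rw [mem_closedBall_zero_iff]
  exact Real.le_sqrt_of_sq_le (norm_le_V adj C b hb ⟨y, hy, hs⟩)

theorem exists_proj (hb : ∀ i, 0 ≤ b i) (u : EuclideanSpace ℝ (I × F)) :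
    ∃ v ∈ V adj C b, ∀ w ∈ V adj C b, inner ℝ (u - v) (w - v) ≤ 0 := by
  obtain ⟨v, hv, h⟩ := exists_norm_eq_iInf_of_complete_convex ⟨0, zero_mem_V adj C b hb⟩
    (compact_V adj C b hb).isComplete (convex_V adj C b hb) u
  exact ⟨v, hv, (norm_eq_iInf_iff_real_inner_le_zero (convex_V adj C b hb) hv).1 h⟩

/-- the gradient -/
noncomputable def grad (x : I → F) : EuclideanSpace ℝ (I × F) :=
  WithLp.toLp 2 fun p => if x p.1 = p.2 then (b p.1)⁻¹ else 0

theorem inner_grad (x : I → F) (s : EuclideanSpace ℝ (I × F)) :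
    inner ℝ (grad b x) s = ∑ i, (b i)⁻¹ * s (i, x i) := by
  rw [PiLp.inner_apply, Fintype.sum_prod_type]
  refine Finset.sum_congr rfl fun i _ => ?_
  rw [Finset.sum_eq_single (x i)]
  · simp [grad]
    ring
  · intro f _ hf
    simp [grad, Ne.symm hf]
  · simp

theorem norm_grad (x : I → F) : ‖grad b x‖ ^ 2 = ∑ i, ((b i)⁻¹) ^ 2 := by
  rw [EuclideanSpace.norm_sq_eq, Fintype.sum_prod_type]
  refine Finset.sum_congr rfl fun i _ => ?_
  rw [Finset.sum_eq_single (x i)]
  · simp [grad]
  · intro f _ hf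
    simp [grad, Ne.symm hf]
  · simp

theorem exists_policy (hb : ∀ i, 0 ≤ b i) (T : ℕ) :
    ∃ π : Policy I J F C, ∀ (x : Fin T → I → F) (y : J → F → ℝ), Config C y →
      ∑ t, reward adj (x t) y - ∑ t : Fin T, reward adj (x t) (π.1 ((List.ofFn x).take t)) ≤
        (∑ i, b i ^ 2 * (C * deg adj i)) / 2 + T * (∑ i, ((b i)⁻¹) ^ 2) / 2 +
          T * ∑ i, (if b i = 0 ∧ deg adj i ≠ 0 then (1 : ℝ) else 0) := by
  choose P hPV hP using exists_proj (F := F) adj C b hb
  set st : List (I → F) → EuclideanSpace ℝ (I × F) :=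
    fun l => l.foldl (fun s x => P (s + grad b x)) 0 with hst
  have hstV : ∀ l, st l ∈ V adj C b := by
    intro l
    rcases List.eq_nil_or_concat l with h | ⟨l', a, h⟩
    · subst h
      exact zero_mem_V adj C b hb
    · subst h
      rw [hst]
      simp only [List.concat_eq_append, List.foldl_append, List.foldl_cons, List.foldl_nil]
      exact hPV _
  choose yy hyy hss using hstV
  refine ⟨⟨yy, hyy⟩, fun x y hy => ?_⟩
  -- comparison of the rewards
  have hdeg : ∀ (y : J → F → ℝ) (i : I) (f : F), deg adj i = 0 → tot adj y i f = 0 := by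
    intro y i f h1
    unfold deg at h1
    rw [Finset.card_eq_zero] at h1
    simp [tot, h1]
  set w : EuclideanSpace ℝ (I × F) := WithLp.toLp 2 fun p => b p.1 * min 1 (tot adj y p.1 p.2) with hw
  have hwV : w ∈ V adj C b := by
    refine ⟨y, hy, fun i f => ⟨?_, le_refl _⟩⟩
    exact mul_nonneg (hb i) (le_min zero_le_one (tot_nonneg adj hy i f))
  have hrw : ∀ x : I → F, reward adj x y ≤ inner ℝ (grad b x) w +
      ∑ i, (if b i = 0 ∧ deg adj i ≠ 0 then (1 : ℝ) else 0) := by
    intro x
    rw [inner_grad, ← Finset.sum_add_distrib]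
    unfold reward
    refine Finset.sum_le_sum fun i _ => ?_
    show min 1 (tot adj y i (x i)) ≤ (b i)⁻¹ * (b i * min 1 (tot adj y i (x i))) + _
    rcases eq_or_ne (b i) 0 with h | h
    · rcases eq_or_ne (deg adj i) 0 with h' | h'
      · rw [hdeg y i (x i) h', h, min_eq_right zero_le_one]
        simp [h']
      · rw [if_pos ⟨h, h'⟩, h]
        have := min_le_left 1 (tot adj y i (x i))
        simp
    · rw [inv_mul_cancel_left₀ h, if_neg fun h' => h h'.1, add_zero]
  have hrs : ∀ (l : List (I → F)) (x : I → F), inner ℝ (grad b x) (st l) ≤ reward adj x (yy l) := by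
    intro l x
    rw [inner_grad]
    unfold reward
    refine Finset.sum_le_sum fun i _ => ?_
    show (b i)⁻¹ * st l (i, x i) ≤ min 1 (tot adj (yy l) i (x i))
    have h1 := (hss l i (x i)).2
    rcases eq_or_ne (b i) 0 with h | h
    · rw [h, inv_zero, zero_mul]
      exact le_min zero_le_one (tot_nonneg adj (hyy l) i (x i))
    · calc (b i)⁻¹ * st l (i, x i) ≤ (b i)⁻¹ * (b i * min 1 (tot adj (yy l) i (x i))) :=
            mul_le_mul_of_nonneg_left h1 (inv_nonneg.2 (hb i))
        _ = _ := by rw [inv_mul_cancel_left₀ h]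
  -- potential
  set G : ℝ := ∑ i, ((b i)⁻¹) ^ 2 with hG
  have hstep : ∀ (l : List (I → F)) (x : I → F),
      2 * (inner ℝ (grad b x) w - inner ℝ (grad b x) (st l)) ≤
        ‖st l - w‖ ^ 2 - ‖st (l ++ [x]) - w‖ ^ 2 + G := by
    intro l x
    have e : st (l ++ [x]) = P (st l + grad b x) := by
      simp only [hst, List.foldl_append, List.foldl_cons, List.foldl_nil]
    rw [e]
    set u := st l + grad b x with hu
    have h1 := hP u w hwV
    have h2 : ‖u - w‖ ^ 2 = ‖u - P u‖ ^ 2 - 2 * inner ℝ (u - P u) (w - P u) + ‖w - P u‖ ^ 2 := by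
      have : u - w = (u - P u) - (w - P u) := by abel
      rw [this, norm_sub_sq_real]
    have h3 : ‖P u - w‖ ^ 2 ≤ ‖u - w‖ ^ 2 := by
      rw [h2, norm_sub_rev (P u) w]
      nlinarith [sq_nonneg ‖u - P u‖]
    have h4 : ‖u - w‖ ^ 2 = ‖st l - w‖ ^ 2 + 2 * inner ℝ (grad b x) (st l - w) + ‖grad b x‖ ^ 2 := by
      have : u - w = (st l - w) + grad b x := by rw [hu]; abel
      rw [this, norm_add_sq_real, real_inner_comm]
    rw [norm_grad, inner_sub_right] at h4
    linarith
  have hsum : ∀ n : ℕ, n ≤ T → ∑ t ∈ Finset.range n, (if h : t < T then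
      2 * (inner ℝ (grad b (x ⟨t, h⟩)) w - inner ℝ (grad b (x ⟨t, h⟩)) (st ((List.ofFn x).take t)))
        else 0) ≤ ‖w‖ ^ 2 - ‖st ((List.ofFn x).take n) - w‖ ^ 2 + n * G := by
    intro n
    induction n with
    | zero =>
      intro _
      have : st ((List.ofFn x).take 0) = 0 := by simp [hst]
      rw [this]
      simp
    | succ n ih =>
      intro hn
      have hlt : n < T := hn
      have ih := ih (le_of_lt hlt)
      rw [Finset.sum_range_succ, dif_pos hlt]
      have htake : (List.ofFn x).take (n + 1) = (List.ofFn x).take n ++ [x ⟨n, hlt⟩] := by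
        rw [List.take_add_one]
        simp [hlt]
      have h1 := hstep ((List.ofFn x).take n) (x ⟨n, hlt⟩)
      rw [htake]
      push_cast
      linarith
  have hfin := hsum T le_rfl
  have e : ∑ t ∈ Finset.range T, (if h : t < T then
      2 * (inner ℝ (grad b (x ⟨t, h⟩)) w - inner ℝ (grad b (x ⟨t, h⟩)) (st ((List.ofFn x).take t)))
        else 0) = ∑ t : Fin T, 2 * (inner ℝ (grad b (x t)) w -
          inner ℝ (grad b (x t)) (st ((List.ofFn x).take t))) := by
    rw [Finset.sum_range]
    refine Finset.sum_congr rfl fun t _ => ?_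
    rw [dif_pos t.2]
  rw [e, ← Finset.mul_sum, Finset.sum_sub_distrib] at hfin
  have h1 : ∑ t, reward adj (x t) y ≤ ∑ t : Fin T, inner ℝ (grad b (x t)) w +
      T * ∑ i, (if b i = 0 ∧ deg adj i ≠ 0 then (1 : ℝ) else 0) := by
    calc ∑ t, reward adj (x t) y ≤ ∑ t : Fin T, (inner ℝ (grad b (x t)) w +
          ∑ i, (if b i = 0 ∧ deg adj i ≠ 0 then (1 : ℝ) else 0)) :=
          Finset.sum_le_sum fun t _ => hrw _
      _ = _ := by
          rw [Finset.sum_add_distrib, Finset.sum_const, Finset.card_univ, Fintype.card_fin,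
            nsmul_eq_mul]
  have h2 : ∑ t : Fin T, inner ℝ (grad b (x t)) (st ((List.ofFn x).take t)) ≤
      ∑ t : Fin T, reward adj (x t) (yy ((List.ofFn x).take t)) :=
    Finset.sum_le_sum fun t _ => hrs _ _
  have h3 := norm_le_V adj C b hb hwV
  have h4 := sq_nonneg ‖st ((List.ofFn x).take T) - w‖
  simp only
  linarith

end ascent

/-- **Upper bound.** -/
theorem upper (adj : J → Finset I) (C T : ℕ) (hC : 1 ≤ C) :
    minimaxRegret F adj C T ≤ ∑ i, min (√(C * T * deg adj i)) (T : ℝ) := by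
  classical
  set b : I → ℝ := fun i => if C * deg adj i ≤ T then √(√(T / (C * deg adj i))) else 0 with hbdef
  have hb : ∀ i, 0 ≤ b i := fun i => by
    simp only [hbdef]
    split_ifs
    · exact Real.sqrt_nonneg _
    · exact le_refl _
  have hC0 : (0 : ℝ) < C := by exact_mod_cast hC
  obtain ⟨π, hπ⟩ := exists_policy (F := F) adj C b hb T
  refine ciInf_le_of_le (bddBelow_minimax adj C T) π ?_
  have hval : (∑ i, b i ^ 2 * (C * deg adj i)) / 2 + T * (∑ i, ((b i)⁻¹) ^ 2) / 2 +
          T * ∑ i, (if b i = 0 ∧ deg adj i ≠ 0 then (1 : ℝ) else 0) ≤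
      ∑ i, min (√(C * T * deg adj i)) (T : ℝ) := by
    rw [Finset.mul_sum, Finset.mul_sum, Finset.sum_div, Finset.sum_div, ← Finset.sum_add_distrib,
      ← Finset.sum_add_distrib]
    refine Finset.sum_le_sum fun i _ => ?_
    rcases Nat.eq_zero_or_pos (deg adj i) with h | h
    · have : b i = 0 := by
        simp only [hbdef, h]
        simp
      rw [this, h]
      simp
    · have h0 : (0 : ℝ) < deg adj i := by exact_mod_cast h
      by_cases hle : C * deg adj i ≤ T
      · have hT0 : (0 : ℝ) < T := by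
          have : 0 < T := lt_of_lt_of_le (Nat.mul_pos hC h) hle
          exact_mod_cast this
        have hleR : (C : ℝ) * deg adj i ≤ T := by exact_mod_cast hle
        set D : ℝ := (deg adj i : ℝ) with hD
        have hbi : b i = √(√(T / (C * D))) := if_pos hle
        have hbpos : 0 < b i := by
          rw [hbi]
          positivity
        have hb2 : b i ^ 2 = √(T / (C * D)) := by
          rw [hbi]
          exact Real.sq_sqrt (Real.sqrt_nonneg _)
        have hbi2 : ((b i)⁻¹) ^ 2 = √((C * D) / T) := by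
          rw [inv_pow, hb2, ← Real.sqrt_inv, inv_div]
        have e1 : √(T / (C * D)) * (C * D) = √(C * T * D) := by
          rw [show C * (T : ℝ) * D = (T / (C * D)) * (C * D) ^ 2 by
            field_simp, Real.sqrt_mul (by positivity), Real.sqrt_sq (by positivity)]
        have e2 : T * √((C * D) / T) = √(C * T * D) := by
          rw [show C * (T : ℝ) * D = T ^ 2 * ((C * D) / T) by
            field_simp, Real.sqrt_mul (by positivity), Real.sqrt_sq (by positivity)]
        rw [hb2, hbi2, e1, e2, if_neg fun h' => hbpos.ne' h'.1, min_eq_left]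
        · linarith
        · rw [Real.sqrt_le_left hT0.le]
          nlinarith
      · have hbi : b i = 0 := if_neg hle
        have hlt : (T : ℝ) ≤ C * deg adj i := by
          have := (not_le.1 hle).le
          exact_mod_cast this
        have hT0 : (0 : ℝ) ≤ T := Nat.cast_nonneg T
        rw [hbi, if_pos ⟨rfl, Nat.pos_iff_ne_zero.1 h⟩, min_eq_right]
        · simp
        · apply Real.le_sqrt_of_sq_le
          nlinarith
  have hnn : 0 ≤ ∑ i, min (√(C * T * deg adj i)) (T : ℝ) :=
    Finset.sum_nonneg fun i _ => le_min (Real.sqrt_nonneg _) (Nat.cast_nonneg T)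
  unfold regret
  refine Real.iSup_le (fun x => ?_) hnn
  unfold regretOn
  have : Nonempty {y : J → F → ℝ // Config C y} := ⟨⟨_, config_zero C⟩⟩
  rw [sub_le_iff_le_add]
  refine ciSup_le fun y => ?_
  have := hπ x y.1 y.2
  linarith

end Pool.Agent.V11278.Cache
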